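import Pool.Agent.Results.MP_b525bf_ag.DiagonalHypersurfaces
import Pool.Agent.KS6_21.P2.Unif

/-!
MP_5b7a2c_ag: uniformization, on all models, of valuations of the function fields of diagonal
hypersurfaces with arbitrary coefficients

  `f 0 * z 0 ^ d 0 + f 1 * z 1 ^ d 1 + ... + f n * z n ^ d n = 0`

over a perfect field `k` of characteristic `p > 0`, in all dimensions; the coefficients `f i` are
arbitrary nonzero elements of independent function fields `E i` of surfaces (for example polynomials
`f i (x i, y i)` in separate pairs of variables), and the exponents `d 1, ..., d n` are not divisible
by `p ^ 2` (`IsDiagonal`). If all `d i` are divisible by `p` these are wild families of varieties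
without smooth fibres, such as the wild quadric bundles for `p = 2`.

The valuations: on a subalgebra `C` of the function field `K` over which `K` is algebraic the
valuation is determined by its values on the functions `w` with `IsMonomial`: the elements of the
`E i`, the `z i`, the partial sums `F i = f 0 * z 0 ^ d 0 + ... + f (i - 1) * z (i - 1) ^ d (i - 1)`
of the equation, their products and quotients, and roots of these. Every `g ∈ C` is a sum of such
functions whose values are not larger than the value of `g` (in multiplicative notation). For example
let `C` be the algebra generated by the fields `E i` and by the partial sums `F 1, ..., F n`, which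
are algebraically independent over the field `E` generated by the `E i`. Then the valuations are the
following: arbitrary valuations of the fields `E i` (with infinitely many free and satellite points,
with defect in their inseparable and wild extensions) have a tensor product on `E`; the values of the
`F i` are arbitrary (a monomial valuation on `E (F 1, ..., F n)`); the valuation extends from this
field to `K`, which is generated over it by the elements `z i` with
`z i ^ d i = (F (i + 1) - F i) / f i`. If, for instance, `F (i + 1)` is infinitely small with respect to
`F i` and `E`, then `z i` approximates a root of the function `-F i / f i`, in general with defect.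

The theorem: such a valuation is uniformizable on every affine variety with the function field `K`:
every blowing-up is dominated by a blowing-up which is regular at the centre of the valuation.

The proof: (1) By MP_b525bf_ag.DiagonalHypersurfaces finitely many functions `w` with `IsMonomial`
are locally monomials on smooth projective models of `K`. (2) By the criterion of
Pool/Graph/R_seed8/TH214/U (see TensorValuations) the local rings of these models at the centres
exhaust the valuation ring. (3) Affine charts of projective models are charts of blowings-up.

helper21; built on the library of the starting files (helper214 for the criterion; the helpers named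
in MP_b525bf_ag.DiagonalHypersurfaces).
-/

set_option autoImplicit false

namespace Pool.Agent.Results.MP_5b7a2c_ag.DiagonalValuations

open Pool.Agent.W418.LU2 Pool.Agent.Results.MP_b525bf_ag.DiagonalHypersurfaces

/-- The local ring of `Spec B` at the centre of the valuation ring `V`: the fractions of elements
of `B` whose denominators are units of `V`. -/
def centreRing {F : Type} [Field F] (V : ValuationSubring F) (B : Subring F) : Subring F where
  carrier := {x | ∃ a ∈ B, ∃ b ∈ B, b ≠ 0 ∧ b⁻¹ ∈ V ∧ x = a * b⁻¹}
  mul_mem' := (lo V.toSubring B).mul_mem'
  one_mem' := (lo V.toSubring B).one_mem'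
  add_mem' := (lo V.toSubring B).add_mem'
  zero_mem' := (lo V.toSubring B).zero_mem'
  neg_mem' := (lo V.toSubring B).neg_mem'

/-- The chart `A[I / f]` of the blowing-up of `Spec A` in the ideal `I`. -/
def blowUpChart {F : Type} [Field F] (A : Subring F) (I : Ideal A) (f : A) : Subring F :=
  Subring.closure ((A : Set F) ∪ {z | ∃ a ∈ I, z = (a : F) / (f : F)})

/-- The blowing-up of `X = Spec A` in the ideal `I` is regular at the centre of the lift of the
valuation. Here `f ∈ I` generates `I V`, so the centre lies in the chart `Spec A[I / f]`. -/
def IsRegularAtCentre {F : Type} [Field F] (V : ValuationSubring F) (A : Subring F)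
    (I : Ideal A) : Prop :=
  ∃ f ∈ I, f ≠ 0 ∧ (∀ a ∈ I, (a : F) / (f : F) ∈ V) ∧
    IsRegularLocalRing (centreRing V (blowUpChart A I f))

/-- The valuation ring `V` is uniformizable on `Spec A`: some cofinal family of blowings-up of
`Spec A` consists of blowings-up which are regular at the centre of the lift of the valuation. (The
blowing-up in `I₀ * I₁` factors through the blowing-up in `I₀`, and the ideals `I₀ ≠ 0` are
arbitrary.) -/
def IsUniformizable {F : Type} [Field F] (V : ValuationSubring F) (A : Subring F) : Prop :=
  ∀ I₀ : Ideal A, I₀ ≠ ⊥ → ∃ I₁ : Ideal A, I₁ ≠ ⊥ ∧ IsRegularAtCentre V A (I₀ * I₁)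

/-- On the subalgebra `C` of `K` the valuation is determined by its values on the set `P`: every
element `z` of `C` is a finite sum of elements of `P` whose values (in multiplicative notation) are
at most the value of `z`. -/
def IsDeterminedBy {k K : Type} [Field k] [Field K] [Algebra k K] (V : ValuationSubring K)
    (P : Set K) (C : Subalgebra k K) : Prop :=
  ∀ z ∈ C, ∃ (N : ℕ) (a : Fin N → K), (∀ j, a j ∈ P) ∧ z = ∑ j, a j ∧
    ∀ j, V.valuation (a j) ≤ V.valuation z

/-- Let `k` be a perfect field of characteristic `p`, and let `K` be the function field of a diagonal
hypersurface `f 0 * z 0 ^ d 0 + ... + f n * z n ^ d n = 0` whose coefficients `f i ≠ 0` are functions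
on independent surfaces (`IsDiagonal`, MP_b525bf_ag.DiagonalHypersurfaces). Let `V` be a valuation
ring of `K` over `k` which is determined, on a subalgebra `C` over which `K` is algebraic, by its
values on the products and quotients, and roots of these, of elements of the function fields of the
surfaces, of the `z i` and of the partial sums of the equation (`IsMonomial`). Then `V` is
uniformizable on every affine variety `Spec A` over `k` with the function field `K` on which it has
a centre. -/
theorem result (p : ℕ) [Fact p.Prime] (k : Type) [Field k] [PerfectField k] [CharP k p]
    (K : Type) [Field K] [Algebra k K] (n : ℕ) (E : ℕ → IntermediateField k K) (f z : ℕ → K)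
    (d : ℕ → ℕ) (h : IsDiagonal p n E f z d)
    (V : ValuationSubring K) (hkV : ∀ c : k, algebraMap k K c ∈ V)
    (C : Subalgebra k K) (hC : ∀ x : K, IsAlgebraic C x)
    (hV : IsDeterminedBy V {w | IsMonomial n E f z d w} C)
    (A : Subalgebra k K) (hA : A.FG)
    (hfr : ∀ x : K, ∃ a ∈ A, ∃ b ∈ A, b ≠ 0 ∧ x = a * b⁻¹) (hAV : ∀ a ∈ A, a ∈ V) :
    IsUniformizable V A.toSubring := by
  have h := Pool.Agent.KS6_21.P2.unif_of_mod (mod_of_diagonal p n E f z d h) V hkV C hC
    (fun z hz => by
      obtain ⟨N, a, ha, h1, h2⟩ := hV z hz
      exact ⟨N, a, fun j => Submonoid.subset_closure (Or.inl (ha j)), h1, h2⟩) A hA hfr hAV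
  intro I₀ hI₀
  obtain ⟨I₁, hI₁, f, hf, hf0, hfV, hreg⟩ := h I₀ hI₀
  exact ⟨I₁, hI₁, f, hf, hf0, hfV, hreg⟩

end Pool.Agent.Results.MP_5b7a2c_ag.DiagonalValuations
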