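import Pool.Agent.KS6_77.ID.Imm

/-!
MP_5b7a2c_ag: almost all valuation rings which are defined by sequences of infinitely near rational
points of a regular local ring of characteristic `p` have the property that their extensions to all
purely inseparable field extensions of exponent one are log uniformizable, in arbitrary dimension.
These extensions of valuations are immediate, so they have the largest possible defect.

Let `O` be a regular local ring of characteristic `p` and dimension `n ≥ 1` with fraction field `K`
and regular parameters `x 1, ..., x n`, which is a finite module over the ring of its `p`-th powers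
and whose residue field is perfect. Let `S` be a finite set of `p`-th powers in `O` which contains
`0` and whose elements are pairwise incongruent modulo the maximal ideal (if the residue field is
finite, `S` can be a full set of representatives). We blow up the closed point of `Spec O` and
choose a rational point of the exceptional divisor with homogeneous coordinates in `S`; its local
ring has natural regular parameters. We repeat this with the new local ring, and so on. So an
infinite sequence `ω` of nonzero vectors with coordinates in `S` defines an increasing sequence of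
local rings `O l`.

(1) If every finite word occurs in `ω` after every position, then the union `V` of the rings `O l`
is a valuation ring of `K`, and the following holds for every field extension `L` of `K` such that
`K` contains the `p`-th powers of the elements of `L` (that is, for `K ⊆ L ⊆ K ^ (1 / p)`, where
`K ^ (1 / p)` has degree `p ^ n` over `K`), and for the valuation ring `W` of `L` over `V`.
If `n ≥ 2`, then `W` is an immediate extension of `V`. The valuation ring `W` is log uniformizable
on the spectrum of each noetherian ring `A` with fraction field `L` which has a common modification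
with `O` at the centre of `W`.
(2) This condition on `ω` holds for almost all `ω`.
-/

set_option autoImplicit false

namespace Pool.Agent.Results.MP_5b7a2c_ag.ExponentOneCovers

open IsLocalRing MeasureTheory Pool.Agent.W418.LU2 Pool.Agent.TH188.QS Pool.Agent.Q40.RP
  Pool.Agent.KS6_77.IC Pool.Agent.KS6_77.ID

universe u

/-- The local ring of `Spec B` at the centre of the valuation ring `V`: the fractions of elements
of `B` whose denominators are units of `V`. -/
def centreRing {F : Type u} [Field F] (V : ValuationSubring F) (B : Subring F) : Subring F where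
  carrier := {x | ∃ a ∈ B, ∃ b ∈ B, b ≠ 0 ∧ b⁻¹ ∈ V ∧ x = a * b⁻¹}
  mul_mem' := by
    rintro x y ⟨a, ha, b, hb, hb0, hbA, rfl⟩ ⟨c, hc, d, hd, hd0, hdA, rfl⟩
    refine ⟨a * c, B.mul_mem ha hc, b * d, B.mul_mem hb hd, mul_ne_zero hb0 hd0, ?_, ?_⟩
    · rw [mul_inv]; exact V.mul_mem _ _ hbA hdA
    · rw [mul_inv]; ring
  one_mem' := ⟨1, B.one_mem, 1, B.one_mem, one_ne_zero, by rw [inv_one]; exact V.one_mem, by simp⟩
  add_mem' := by
    rintro x y ⟨a, ha, b, hb, hb0, hbA, rfl⟩ ⟨c, hc, d, hd, hd0, hdA, rfl⟩
    refine ⟨a * d + c * b, B.add_mem (B.mul_mem ha hd) (B.mul_mem hc hb), b * d,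
      B.mul_mem hb hd, mul_ne_zero hb0 hd0, ?_, ?_⟩
    · rw [mul_inv]; exact V.mul_mem _ _ hbA hdA
    · field_simp
  zero_mem' := ⟨0, B.zero_mem, 1, B.one_mem, one_ne_zero, by rw [inv_one]; exact V.one_mem,
    by simp⟩
  neg_mem' := by
    rintro x ⟨a, ha, b, hb, hb0, hbA, rfl⟩
    exact ⟨-a, B.neg_mem ha, b, hb, hb0, hbA, by ring⟩

/-- The chart `A[I / f]` of the blowing-up of `Spec A` in the ideal `I`. -/
def blowUpChart {F : Type u} [Field F] (A : Subring F) (I : Ideal A) (f : A) : Subring F :=
  Subring.closure ((A : Set F) ∪ {z | ∃ a ∈ I, z = (a : F) / (f : F)})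

/-- `P` is a regular local ring and the zero set of `J` is a divisor with strict normal
crossings: the radical of `J` is generated by the product of some of the elements of a regular
system of parameters. -/
def RegularPair (P : Type u) [CommRing P] (J : Ideal P) : Prop :=
  ∃ (_ : IsRegularLocalRing P) (n : ℕ) (x : Fin n → P) (s : Finset (Fin n)),
    Ideal.span (Set.range x) = IsLocalRing.maximalIdeal P ∧ ringKrullDim P = n ∧
      J.radical = Ideal.span {∏ i ∈ s, x i}

/-- The blowing-up of `X = Spec A` in `V(I)` is a log desingularization of `(X, V(D))` along the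
valuation ring `V`. Here `f ∈ I` generates `I V`, the centre of the lift of the valuation lies in
the chart `Spec A[I / f]`, and the ideal `D I` defines the preimage of `V(D) ∪ V(I)`. -/
def IsLogDesingularization {F : Type u} [Field F] (V : ValuationSubring F) (A : Subring F)
    (D I : Ideal A) : Prop :=
  ∃ f ∈ I, f ≠ 0 ∧ (∀ a ∈ I, (a : F) / (f : F) ∈ V) ∧
    RegularPair (centreRing V (blowUpChart A I f))
      (Ideal.span {z | ∃ a ∈ D * I, (z : F) = (a : F)})

/-- The valuation ring `V` is log uniformizable on `Spec A`. (The blowings-up in the ideals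
`I₀ * I₁` are cofinal: the blowing-up in `I₀ * I₁` factors through the blowing-up in `I₀`.) -/
def IsLogUniformizable {F : Type u} [Field F] (V : ValuationSubring F) (A : Subring F) : Prop :=
  ∀ D I₀ : Ideal A, D ≠ ⊥ → I₀ ≠ ⊥ →
    ∃ I₁ : Ideal A, I₁ ≠ ⊥ ∧ IsLogDesingularization V A D (I₀ * I₁)

section points

variable {K : Type u} [Field K] {n : ℕ}

/-- The fractions `E(y) / D(y)` of polynomials over `Q` such that the constant term of `D` is a unit
of `Q`. -/
noncomputable def localization (Q : Subring K) (y : Fin n → K) : Subring K where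
  carrier := {z | ∃ E D : MvPolynomial (Fin n) Q, IsUnit (MvPolynomial.constantCoeff D) ∧
    z = MvPolynomial.eval₂ Q.subtype y E / MvPolynomial.eval₂ Q.subtype y D}
  mul_mem' := by
    rintro _ _ ⟨E, D, hD, rfl⟩ ⟨E', D', hD', rfl⟩
    refine ⟨E * E', D * D', by rw [map_mul]; exact hD.mul hD', ?_⟩
    rw [MvPolynomial.eval₂_mul, MvPolynomial.eval₂_mul, div_mul_div_comm]
  one_mem' := ⟨1, 1, by rw [map_one]; exact isUnit_one, by
    rw [MvPolynomial.eval₂_one, div_one]⟩
  add_mem' := by
    rintro _ _ ⟨E, D, hD, rfl⟩ ⟨E', D', hD', rfl⟩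
    by_cases h : MvPolynomial.eval₂ Q.subtype y D = 0
    · refine ⟨E', D', hD', ?_⟩
      rw [h, div_zero, zero_add]
    · by_cases h' : MvPolynomial.eval₂ Q.subtype y D' = 0
      · refine ⟨E, D, hD, ?_⟩
        rw [h', div_zero, add_zero]
      · refine ⟨E * D' + D * E', D * D', by rw [map_mul]; exact hD.mul hD', ?_⟩
        rw [MvPolynomial.eval₂_mul, MvPolynomial.eval₂_add, MvPolynomial.eval₂_mul,
          MvPolynomial.eval₂_mul, div_add_div _ _ h h']
  zero_mem' := ⟨0, 1, by rw [map_one]; exact isUnit_one, by
    rw [MvPolynomial.eval₂_zero, zero_div]⟩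
  neg_mem' := by
    rintro _ ⟨E, D, hD, rfl⟩
    refine ⟨-E, D, hD, ?_⟩
    rw [MvPolynomial.eval₂_neg, neg_div]

/-- The parameters `x j` and `x i / x j - c i / c j` (for `i ≠ j`) of the point with homogeneous
coordinates `c` of the exceptional divisor, if `c j ≠ 0`. -/
def newParameters (j : Fin n) (c x : Fin n → K) (i : Fin n) : K :=
  if i = j then x j else x i / x j - c i / c j

/-- The local ring, with parameters, of the point with homogeneous coordinates `c` of the
exceptional divisor of the blowing-up of the closed point of the local ring `s.1` with the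
parameters `s.2`. Here `piv c` is the index of a nonzero coordinate of `c`. -/
noncomputable def nextPoint {O : Subring K} (piv : (Fin n → O) → Fin n)
    (s : Subring K × (Fin n → K)) (c : Fin n → O) : Subring K × (Fin n → K) :=
  (localization s.1 (newParameters (piv c) (fun i => (c i : K)) s.2),
    newParameters (piv c) (fun i => (c i : K)) s.2)

/-- The nonzero vectors with coordinates in `S`. -/
def Letter (n : ℕ) {O : Subring K} (S : Finset O) : Type u :=
  {c : Fin n → O // (∀ i, c i ∈ S) ∧ c ≠ 0}

/-- The local ring, with parameters, of the infinitely near point of `O` defined by the word `w`. -/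
noncomputable def pointOf {O : Subring K} {S : Finset O} (piv : (Fin n → O) → Fin n)
    (x : Fin n → O) {l : ℕ} (w : Fin l → Letter n S) : Subring K × (Fin n → K) :=
  (List.ofFn fun i => (w i).1).foldl (nextPoint piv) (O, fun i => (x i : K))

/-- Every finite word occurs in `ω` after every position. -/
def IsRich {O : Subring K} {S : Finset O} (ω : ℕ → Letter n S) : Prop :=
  ∀ (r : ℕ) (w : Fin r → Letter n S) (N : ℕ), ∃ q, N ≤ q ∧ ∀ t : Fin r, ω (q + t) = w t

/-- `V` is the union of the local rings of the infinitely near points. -/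
def IsUnionOf (V : ValuationSubring K) {O : Subring K} {S : Finset O}
    (piv : (Fin n → O) → Fin n) (x : Fin n → O) (ω : ℕ → Letter n S) : Prop :=
  ∀ z : K, z ∈ V ↔ ∃ l : ℕ, z ∈ (pointOf piv x fun i : Fin l => ω i).1

end points

/-- `R` is a finite module over the ring of its `p`-th powers. -/
def IsFFinite (p : ℕ) (R : Type u) [CommRing R] : Prop :=
  ∃ (m : ℕ) (e : Fin m → R), ∀ q : R, ∃ c : Fin m → R, q = ∑ i, c i ^ p * e i

/-- `F` is the field of fractions of `A`, and the rings `A` and `B` have a common modification at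
the centre of `V`: there are finite subsets `T` and `T'` of `V` such that the local rings of
`Spec A[T]` and of `Spec B[T']` at the centre of `V` are equal. -/
def HasCommonModification {F : Type u} [Field F] (V : ValuationSubring F) (A B : Subring F) :
    Prop :=
  (∀ z : F, ∃ a ∈ A, ∃ b ∈ A, b ≠ 0 ∧ z = a / b) ∧
    ∃ T T' : Set F, T.Finite ∧ T'.Finite ∧ (∀ t ∈ T, t ∈ V) ∧ (∀ t ∈ T', t ∈ V) ∧
      centreRing V (Subring.closure ((A : Set F) ∪ T)) =
        centreRing V (Subring.closure ((B : Set F) ∪ T'))

instance {K : Type u} [Field K] {n : ℕ} {O : Subring K} (S : Finset O) :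
    Finite (Letter n S) := by
  classical
  refine Finite.of_injective (β := ↥(Fintype.piFinset fun _ : Fin n => S))
    (fun c => ⟨c.1, Fintype.mem_piFinset.2 c.2.1⟩) ?_
  intro a b h
  exact Subtype.ext (Subtype.mk.inj h)

noncomputable instance {K : Type u} [Field K] {n : ℕ} {O : Subring K} (S : Finset O) :
    Fintype (Letter n S) := Fintype.ofFinite _

instance {K : Type u} [Field K] {n : ℕ} {O : Subring K} (S : Finset O) :
    MeasurableSpace (Letter n S) := ⊤

instance {K : Type u} [Field K] {n : ℕ} {O : Subring K} (S : Finset O) :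
    MeasurableSingletonClass (Letter n S) := ⟨fun _ => trivial⟩

/-- The product of the uniform measures on the set of letters. -/
noncomputable def uniformMeasure {K : Type u} [Field K] (n : ℕ) {O : Subring K} (S : Finset O)
    [Nonempty (Letter n S)] : Measure (ℕ → Letter n S) :=
  Measure.infinitePi fun _ : ℕ => (PMF.uniformOfFintype (Letter n S)).toMeasure

/-- Covers of exponent one of the valuation rings of random sequences of infinitely near points. -/
theorem result {p : ℕ} [Fact p.Prime] {K : Type u} [Field K] [CharP K p] {O : Subring K}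
    [IsRegularLocalRing O] (hfrac : ∀ z : K, ∃ a b : O, b ≠ 0 ∧ z = a / b)
    (hfin : IsFFinite p O) (hperf : ∀ a : O, ∃ b : O, a - b ^ p ∈ maximalIdeal O)
    {n : ℕ} (hn : 1 ≤ n) (hdim : ringKrullDim O = n)
    {x : Fin n → O} (hx : Ideal.span (Set.range x) = maximalIdeal O)
    {S : Finset O} (hS0 : (0 : O) ∈ S) (hS : ∀ a ∈ S, ∀ b ∈ S, a ≠ b → IsUnit (a - b))
    (hSp : ∀ a ∈ S, ∃ b : O, b ^ p = a) {piv : (Fin n → O) → Fin n}
    (hpiv : ∀ c : Fin n → O, c ≠ 0 → c (piv c) ≠ 0) [Nonempty (Letter n S)] :
    (∀ ω : ℕ → Letter n S, IsRich ω → ∃ V : ValuationSubring K, IsUnionOf V piv x ω ∧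
      ∀ (L : Type u) [Field L] [Algebra K L], (∀ w : L, ∃ q : K, algebraMap K L q = w ^ p) →
        ∀ W : ValuationSubring L, W.comap (algebraMap K L) = V →
          (2 ≤ n → ∀ w : L, w ≠ 0 → ∃ q : K,
            W.valuation (w - algebraMap K L q) < W.valuation w) ∧
          ∀ A : Subring L, A ≤ W.toSubring → IsNoetherianRing A →
            HasCommonModification W A (O.map (algebraMap K L)) → IsLogUniformizable W A) ∧
    ∀ᵐ ω ∂(uniformMeasure n S), IsRich ω := by
  classical
  have hd := dat_of (K := K) hS0 hS hpiv
  have hF : FF p O := by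
    obtain ⟨m, e, he⟩ := hfin
    exact ⟨Fin m, inferInstance, e, he⟩
  have hk : ∀ a : ResidueField O, ∃ b : ResidueField O, b ^ p = a := by
    intro a
    obtain ⟨a, rfl⟩ := residue_surjective a
    obtain ⟨b, hb⟩ := hperf a
    refine ⟨residue O b, ?_⟩
    rw [← map_pow, eq_comm, ← sub_eq_zero, ← map_sub]
    exact (residue_eq_zero_iff _).2 hb
  obtain ⟨a, haS, ha⟩ : ∃ a ∈ S, a ≠ 0 := by
    obtain ⟨c⟩ := (inferInstance : Nonempty (Letter n S))
    obtain ⟨i, hi⟩ := Function.ne_iff.1 c.2.2
    exact ⟨c.1 i, c.2.1 i, hi⟩
  have hsing : ∀ t : Fin n, (∀ i, (Pi.single t a : Fin n → O) i ∈ S) ∧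
      (Pi.single t a : Fin n → O) ≠ 0 := by
    intro t
    refine ⟨fun i => ?_, fun h => ?_⟩
    · by_cases hi : i = t
      · rw [hi, Pi.single_eq_same]; exact haS
      · rw [Pi.single_eq_of_ne hi]; exact hS0
    · have := congrFun h t
      rw [Pi.single_eq_same] at this
      exact ha this
  have hconst : (∀ i, (fun _ : Fin n => a) i ∈ S) ∧ (fun _ : Fin n => a) ≠ 0 :=
    ⟨fun _ => haS, fun h => ha (congrFun h (⟨0, by omega⟩ : Fin n))⟩
  refine ⟨fun ω hω => ?_, ?_⟩
  · have hpat : ∀ N, ∃ q, N ≤ q ∧ ∀ t : Fin n, (ω (q + t)).1 = Pi.single t a ∧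
        (ω (q + n + t)).1 = Pi.single t a := by
      intro N
      obtain ⟨q, hq, h⟩ := hω (n + n) (Fin.append (fun t => ⟨Pi.single t a, hsing t⟩)
        (fun t => ⟨Pi.single t a, hsing t⟩)) N
      refine ⟨q, hq, fun t => ⟨?_, ?_⟩⟩
      · have h1 := h (Fin.castAdd n t)
        rw [Fin.append_left] at h1
        exact congrArg Subtype.val h1
      · have h1 := h (Fin.natAdd n t)
        rw [Fin.append_right, Fin.val_natAdd, ← add_assoc] at h1
        exact congrArg Subtype.val h1
    have hpat' : ∀ N, ∃ q, N ≤ q ∧ (∀ t : Fin n, (ω (q + t)).1 = Pi.single t a) ∧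
        ∀ i, (ω (q + n)).1 i ≠ 0 := by
      intro N
      obtain ⟨q, hq, h⟩ := hω (n + 1) (fun t => if ht : (t : ℕ) < n then
        ⟨Pi.single ⟨t, ht⟩ a, hsing ⟨t, ht⟩⟩ else ⟨fun _ => a, hconst⟩) N
      refine ⟨q, hq, fun t => ?_, fun i => ?_⟩
      · have h1 := h ⟨t, by omega⟩
        rw [dif_pos t.2] at h1
        exact congrArg Subtype.val h1
      · have h1 := h ⟨n, by omega⟩
        rw [dif_neg (lt_irrefl n)] at h1
        have h2 : (ω (q + n)).1 = fun _ => a := congrArg Subtype.val h1
        rw [h2]
        exact ha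
    have hsq : ∀ l : ℕ, pointOf piv x (fun i : Fin l => ω i) =
        sq piv (st0 x) (fun l => (ω l).1) l := fun l =>
      (sq_eq piv (st0 x) (fun l => (ω l).1) l).symm
    obtain ⟨V, hV, hmo, -⟩ := det (K := K) hfrac hx hdim.ge hd (ω := fun l => (ω l).1)
      (fun l => (ω l).2) ha (fun N => by
        obtain ⟨q, hq, h⟩ := hpat N
        exact ⟨q, hq, fun t => (h t).1⟩)
    refine ⟨V, ?_, ?_⟩
    · intro z
      simp only [hsq]
      exact hV z
    · rintro L _ _ hL W hW
      obtain ⟨φ, hφ, hφψ⟩ := exists_phi p hL
      have hWV := mem_iff_of_comap p hW hφ (Fact.out : p.Prime).ne_zero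
      refine ⟨fun hn2 w hw => ?_, ?_⟩
      · obtain ⟨i, hi⟩ : ∃ i : Fin n, piv (fun _ => a) ≠ i := by
          by_cases h : piv (fun _ => a) = ⟨0, by omega⟩
          · exact ⟨⟨1, by omega⟩, fun h' => by rw [h] at h'; exact absurd (Fin.mk.inj h') (by omega)⟩
          · exact ⟨_, h⟩
        have hp2 := (Fact.out : p.Prime).two_le
        have hpat3 : ∀ N, ∃ m, N ≤ m ∧ (ω m).1 = (fun _ => a) ∧
            (∀ t, t < p - 1 → (ω (m + 1 + t)).1 = Pi.single i a) ∧
            (ω (m + p)).1 = fun _ => a := by
          intro N
          obtain ⟨m, hm, h⟩ := hω (p + 1) (fun t => if (t : ℕ) = 0 ∨ (t : ℕ) = p then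
            ⟨fun _ => a, hconst⟩ else ⟨Pi.single i a, hsing i⟩) N
          refine ⟨m, hm, ?_, fun t ht => ?_, ?_⟩
          · have h1 := h ⟨0, by omega⟩
            rw [if_pos (Or.inl rfl)] at h1
            exact congrArg Subtype.val h1
          · have h1 := h ⟨1 + t, by omega⟩
            rw [if_neg (by simp only; omega)] at h1
            rw [add_assoc]
            exact congrArg Subtype.val h1
          · have h1 := h ⟨p, by omega⟩
            rw [if_pos (Or.inr rfl)] at h1
            exact congrArg Subtype.val h1
        exact immediate_of p hφ hφψ hWV (fun g hg => exists_pp p hd (fun l => (ω l).2)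
          (gd_base (K := K) hx hdim.ge) hV hk ha (c := fun _ => a) (fun _ => ha) hi hpat3 hmo hg) hw
      · rintro A hA hAn ⟨hAfr, T, T', hT, hT', hTW, hTW', hbase⟩
        exact cov_mainF p hfrac hx hdim.ge hF hk hSp hφψ hd (ω := fun l => (ω l).1)
          (fun l => (ω l).2) ha hpat hpat' hV hWV hA hAn hAfr hT hT' hTW hTW' hbase
  · unfold IsRich uniformMeasure
    rw [ae_all_iff]
    intro r
    rw [ae_all_iff]
    intro w
    exact ae_pattern w

end Pool.Agent.Results.MP_5b7a2c_ag.ExponentOneCovers
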