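import Pool.Agent.Results.MP_b525bf_ag.FrobeniusPencils
import Pool.Agent.KS6_21.P2.Unif

/-!
MP_5b7a2c_ag: uniformization, on all models, of valuations of function fields of towers with wild
pencils, in all dimensions and in all characteristics `p > 0`.

The fields: triples `(K, P, f)` of a function field `K` over a perfect field `k` of characteristic
`p`, a set `P` of elements of `K` and a finite family `f` of elements of `K`, which are obtained from
function fields of surfaces by the operations of the hand-in MP_b525bf_ag.FrobeniusPencils (the class
`IsTower`). The main example: `K` is the function field of the covering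

  `w ^ a = ∏ i, G i ^ e i`, `G i = z i ^ p + f i 1 (x i 1, y i 1) + ... + f i m (x i m, y i m)`

where the `f i j` are arbitrary polynomials in two variables, and `a` is prime to `p` or `a = p`; `P`
contains all functions of the `(x i j, y i j)`, and the `G i`. Other examples are nested equations
such as `w ^ a = z ^ p + g (x, y) * (u ^ p + f (s, t) + h (v, r)) ^ e`, `p ∤ e`.

The valuations: on a subalgebra `C` of `K` over which `K` is algebraic the valuation is determined by
its values on `P`: every `g ∈ C` is a sum of products of elements of `P` and of their inverses whose
values are not larger than the value of `g` (in multiplicative notation). For the covering above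
one can take the algebra `C` generated by the fields `k (x i j, y i j)` and the `G i`. Then the
valuations are the following: arbitrary valuations of the fields `k (x i j, y i j)` (with
infinitely many free and satellite points, and with defect in inseparable and wild extensions of
these fields) have a tensor product; the values of the `G i` are arbitrary, and the valuation on
the field generated by `C` is the monomial valuation with these values of the `G i`; it has a unique
extension to the field generated by `C` and the `z i`, and some extensions to `K`. For example, some
`G i` can be infinitely small with respect to the other ones and to the field `L` of the functions of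
the `x i j`, `y i j`. Then the valuation is composed of the divisorial valuation of the
hypersurface `z i ^ p + ∑ j, f i j = 0` and of a valuation of its function field, which is a purely
inseparable extension, in general with defect. Or the value of `G i` can be any bound for the
approximation of `- ∑ j, f i j` by `p`-th powers.

The theorem: such a valuation is uniformizable on every affine variety with the function field `K`:
every blowing-up is dominated by a blowing-up which is regular at the centre of the valuation.

The proof: (1) By MP_b525bf_ag.FrobeniusPencils finitely many products of elements of `P` are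
locally monomials on smooth projective models of `K`. (2) By the criterion of
Pool/Graph/R_seed8/TH214/U (see TensorValuations) the local rings of these models at the centres
exhaust the valuation ring. (3) Affine charts of projective models are charts of blowings-up.

helper21; built on the library of the starting files (helper214 for the criterion; the helpers named
in MP_b525bf_ag.FrobeniusPencils).
-/

set_option autoImplicit false

namespace Pool.Agent.Results.MP_5b7a2c_ag.FrobeniusPencilValuations

open Pool.Agent.W418.LU2 Pool.Agent.Results.MP_b525bf_ag.FrobeniusPencils

/-- The local ring of `Spec B` at the centre of the valuation ring `V`: the fractions of elements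
of `B` whose denominators are units of `V`. -/
def centreRing {F : Type} [Field F] (V : ValuationSubring F) (B : Subring F) : Subring F where
  carrier := {x | ∃ a ∈ B, ∃ b ∈ B, b ≠ 0 ∧ b⁻¹ ∈ V ∧ x = a * b⁻¹}
  mul_mem' := (lo V.toSubring B).mul_mem'
  one_mem' := (lo V.toSubring B).one_mem'
  add_mem' := (lo V.toSubring B).add_mem'
  zero_mem' := (lo V.toSubring B).zero_mem'
  neg_mem' := (lo V.toSubring B).neg_mem'

/-- The chart `A[I / f]` of the blowing-up of `Spec A` in the ideal `I`. -/
def blowUpChart {F : Type} [Field F] (A : Subring F) (I : Ideal A) (f : A) : Subring F :=
  Subring.closure ((A : Set F) ∪ {z | ∃ a ∈ I, z = (a : F) / (f : F)})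

/-- The blowing-up of `X = Spec A` in the ideal `I` is regular at the centre of the lift of the
valuation. Here `f ∈ I` generates `I V`, so the centre lies in the chart `Spec A[I / f]`. -/
def IsRegularAtCentre {F : Type} [Field F] (V : ValuationSubring F) (A : Subring F)
    (I : Ideal A) : Prop :=
  ∃ f ∈ I, f ≠ 0 ∧ (∀ a ∈ I, (a : F) / (f : F) ∈ V) ∧
    IsRegularLocalRing (centreRing V (blowUpChart A I f))

/-- The valuation ring `V` is uniformizable on `Spec A`: some cofinal family of blowings-up of
`Spec A` consists of blowings-up which are regular at the centre of the lift of the valuation. (The
blowing-up in `I₀ * I₁` factors through the blowing-up in `I₀`, and the ideals `I₀ ≠ 0` are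
arbitrary.) -/
def IsUniformizable {F : Type} [Field F] (V : ValuationSubring F) (A : Subring F) : Prop :=
  ∀ I₀ : Ideal A, I₀ ≠ ⊥ → ∃ I₁ : Ideal A, I₁ ≠ ⊥ ∧ IsRegularAtCentre V A (I₀ * I₁)

/-- On the subalgebra `C` of `K` the valuation is determined by its values on the set `P`: every
element `z` of `C` is a finite sum of products of elements of `P` and of inverses of elements of
`P`, such that the values of these products (in multiplicative notation) are at most the value
of `z`. -/
def IsDeterminedBy {k K : Type} [Field k] [Field K] [Algebra k K] (V : ValuationSubring K)
    (P : Set K) (C : Subalgebra k K) : Prop :=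
  ∀ z ∈ C, ∃ (N : ℕ) (a : Fin N → K),
    (∀ j, a j ∈ Submonoid.closure (P ∪ {w | w⁻¹ ∈ P})) ∧ z = ∑ j, a j ∧
      ∀ j, V.valuation (a j) ≤ V.valuation z

/-- Let `k` be a perfect field of characteristic `p`, and let `(K, P, f)` be a triple of an extension
of `k`, a set of its elements and a finite family of its elements which is obtained from function
fields of surfaces by the operations of `IsTower` (MP_b525bf_ag.FrobeniusPencils). Let `V` be a
valuation ring of `K` over `k` which is determined by its values on `P` on a subalgebra `C` over
which `K` is algebraic. Then `V` is uniformizable on every affine variety `Spec A` over `k` with the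
function field `K` on which it has a centre. -/
theorem result (p : ℕ) [Fact p.Prime] (k : Type) [Field k] [PerfectField k] [CharP k p]
    (K : Type) [Field K] [Algebra k K] (P : Set K) (n : ℕ) (f : Fin n → K)
    (hP : IsTower p k K P n f)
    (V : ValuationSubring K) (hkV : ∀ c : k, algebraMap k K c ∈ V)
    (C : Subalgebra k K) (hC : ∀ x : K, IsAlgebraic C x) (hV : IsDeterminedBy V P C)
    (A : Subalgebra k K) (hA : A.FG)
    (hfr : ∀ x : K, ∃ a ∈ A, ∃ b ∈ A, b ≠ 0 ∧ x = a * b⁻¹) (hAV : ∀ a ∈ A, a ∈ V) :
    IsUniformizable V A.toSubring := by
  have h := Pool.Agent.KS6_21.P2.unif_of_mod (md_of_tower p k K P n f hP).mod V hkV C hC hV A hA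
    hfr hAV
  intro I₀ hI₀
  obtain ⟨I₁, hI₁, f, hf, hf0, hfV, hreg⟩ := h I₀ hI₀
  exact ⟨I₁, hI₁, f, hf, hf0, hfV, hreg⟩

end Pool.Agent.Results.MP_5b7a2c_ag.FrobeniusPencilValuations
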